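import Pool.Agent.Helper53.CTR.Goals

/-!
# Project CTR: packet FI6 (the invariant in mode 6)
-/

set_option autoImplicit false

namespace Pool.Agent.Helper72.CTR

open Pool.Agent.Helper53.CTR
open Pool.Agent.Helper1.TE (Gad app Ch cif NumMach codeB word)
open Pool.Agent.Helper65.LinSpace (dig tab nrec ifz eq01 le01 lt01 capPow)

theorem codeB_sub (w : List Bool) (n : ℕ) : codeB w[n]? - 1 = (w.getD n false).toNat := by
  rw [List.getD_eq_getElem?_getD]
  cases w[n]? with
  | none => rfl
  | some a =>
    change 1 + a.toNat - 1 = a.toNat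
    omega

theorem word_succ (w : List Bool) (k i j : ℕ) :
    word (w.drop k) i (j + 1) = 2 * word (w.drop k) i j + (codeB w[k + i + j]? - 1) := by
  rw [word, codeB_sub, List.getD_eq_getElem?_getD, List.getD_eq_getElem?_getD,
    List.getElem?_drop, add_assoc k i j]

theorem nx_eq (ok : ℕ → ℕ → ℕ → ℕ → ℕ) (w : List Bool) (h q b c u W τ g t : ℕ) (D : De)
    (X S A γ : ℕ) :
    (machM ok).nx w (mainS h q b c u W τ g t D X S A) γ =
      cif (Nt h q - u)
        (cif (Nt h q + 2 * b - u)
          (cif (Nt h q + 3 * b - u)
            (cif (bigT b c W D (g / 2 ^ b) t X A) rejS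
              (cif ((τ + 1) / 9 ^ Nt h q)
                (mainS h q b c 0 W (τ + 1) 0 0 (root h q)
                  (bigX h q b c W D (g / 2 ^ b) (g % 2 ^ b) t X S A)
                  (bigS h q b c W D (g / 2 ^ b) t X S A)
                  (bigA c W D (g / 2 ^ b) A))
                accS))
            (mainS h q b c (u + 1) W τ g
              (2 * t + (codeB w[h + q + b + c + 4 + blkM b c W D A g * b +
                (u - (Nt h q + 2 * b))]? - 1)) D X S A))
          (mainS h q b c (u + 1) W τ (2 * g + γ) t D X S A))
        (mainS h q b c (u + 1) W τ g t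
          (sub q D (Nt h q - 1 - u) (dig 9 τ (Nt h q - 1 - u))) X S A) := rfl

theorem cif_zero {β : Type} {c : ℕ} (h : c = 0) (x y : β) : cif c x y = x := if_pos h

theorem cif_ne {β : Type} {c : ℕ} (h : c ≠ 0) (x y : β) : cif c x y = y := if_neg h

theorem gFI6 : GoalFI6 := by
  intro _ hStep hAcc ok w x γ hγ hI hmo
  cases hI with
  | rej => exact absurd hmo (by decide)
  | m0 h h1 => exact absurd hmo (by change ¬ (0 = 6); decide)
  | m1 h q h1 h2 h3 => exact absurd hmo (by change ¬ (1 = 6); decide)
  | m2 h q b h1 h2 h3 h4 h5 => exact absurd hmo (by change ¬ (2 = 6); decide)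
  | m3 h q b c h1 => exact absurd hmo (by change ¬ (3 = 6); decide)
  | m4 h q b c u h1 hu h2 => exact absurd hmo (by change ¬ (4 = 6); decide)
  | m5 h q b c u h1 hu => exact absurd hmo (by change ¬ (5 = 6); decide)
  | m7 h1 => exact absurd hmo (by decide)
  | m6 h q b c u τ g t D X S A h1 hτ hu hg hD ht hX hS hC =>
    rw [nx_eq]
    by_cases hu1 : Nt h q - u = 0
    · rw [cif_zero hu1]
      by_cases hu2 : Nt h q + 2 * b - u = 0
      · rw [cif_zero hu2]
        by_cases hu3 : Nt h q + 3 * b - u = 0
        · -- a step of the algorithm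
          rw [cif_zero hu3]
          have hu' : u = Nt h q + 3 * b := by omega
          subst hu'
          have hg' : g < 4 ^ b := by
            rw [min_eq_right (by omega), pow_mul] at hg
            exact hg
          have hD' : D = dec q (root h q) (Nt h q) τ (Nt h q) := by
            rw [min_eq_right (by omega)] at hD
            exact hD
          have ht' : t = word (dat w h q b c) (blkM b c (2 ^ Et h q b c) D A g * b) b := by
            rw [show Nt h q + 3 * b - (Nt h q + 2 * b) = b by omega] at ht
            exact ht
          obtain ⟨-, hs2⟩ := hStep ok w h q b c τ g X S A h1 hτ hg' hX hS hC D t hD' ht'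
          by_cases hbT : bigT b c (2 ^ Et h q b c) D (g / 2 ^ b) t X A = 0
          · rw [cif_zero hbT]
            exact Inv.rej
          · rw [cif_ne hbT]
            obtain ⟨s', -, hC', hlt⟩ := hs2 hbT
            by_cases hq : (τ + 1) / 9 ^ Nt h q = 0
            · rw [cif_zero hq]
              have hq' : τ + 1 < 9 ^ Nt h q := by
                rcases Nat.div_eq_zero_iff.1 hq with h0 | h0
                · exact absurd h0 (by positivity)
                · exact h0
              obtain ⟨hs, hX', hS'⟩ := hlt hq'
              rw [hs] at hC'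
              refine Inv.m6 h q b c 0 (τ + 1) 0 0 _ _ _ _ h1 hq' (by omega) (by positivity)
                ?_ ?_ hX' hS' hC'
              · rw [Nat.zero_min]
                rfl
              · rw [Nat.zero_sub]
                rfl
            · rw [cif_ne hq]
              have hq' : τ + 1 = 9 ^ Nt h q := by
                have h2 : ¬ (τ + 1 < 9 ^ Nt h q) := fun h3 => hq (Nat.div_eq_of_lt h3)
                omega
              rw [hq'] at hC'
              exact Inv.m7 ⟨h, q, b, c, h1,
                (hAcc w h q b c h1.1.2.2.1 h1.1.2.2.2.1 h1.1.2.2.2.2.1 h1.1.2.2.2.2.2.1).1 ⟨s', hC'⟩⟩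
        · -- reading a letter
          rw [cif_ne hu3]
          refine Inv.m6 h q b c (u + 1) τ g _ D X S A h1 hτ (by omega) ?_ ?_ ?_ hX hS hC
          · rw [min_eq_right (by omega)] at hg ⊢
            exact hg
          · rw [min_eq_right (by omega)] at hD ⊢
            exact hD
          · rw [show u + 1 - (Nt h q + 2 * b) = (u - (Nt h q + 2 * b)) + 1 by omega, dat, word_succ,
              ← dat, ← ht]
      · -- guessing a bit
        rw [cif_ne hu2]
        refine Inv.m6 h q b c (u + 1) τ (2 * g + γ) t D X S A h1 hτ (by omega) ?_ ?_ ?_ hX hS hC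
        · rw [min_eq_left (by omega)] at hg ⊢
          rw [show u + 1 - Nt h q = (u - Nt h q) + 1 by omega, pow_succ]
          omega
        · rw [min_eq_right (by omega)] at hD ⊢
          exact hD
        · rw [show u + 1 - (Nt h q + 2 * b) = 0 by omega]
          rw [show u - (Nt h q + 2 * b) = 0 by omega] at ht
          rw [ht]
          rfl
    · -- one more digit
      rw [cif_ne hu1]
      refine Inv.m6 h q b c (u + 1) τ g t _ X S A h1 hτ (by omega) ?_ ?_ ?_ hX hS hC
      · rw [show u + 1 - Nt h q = u - Nt h q by omega]
        exact hg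
      · rw [min_eq_left (by omega)] at hD ⊢
        rw [hD]
        rfl
      · rw [show u + 1 - (Nt h q + 2 * b) = 0 by omega]
        rw [show u - (Nt h q + 2 * b) = 0 by omega] at ht
        rw [ht]
        rfl

end Pool.Agent.Helper72.CTR
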